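import Pool.Agent.Work.MP_5bd7f1_co.LP.Cover
import Pool.Agent.Work.MP_5bd7f1_co.PD.Draw

set_option autoImplicit false

namespace Pool.Agent.Results.MP_5bd7f1_co.TriangleCluster

/-- A planar graph with pairwise disjoint triangles and no 5-cycle through an edge of a triangle
that is not 3-colourable has a set `X` of triangles whose edges are covered, exactly once and one
edge of a triangle at a time, by cycles of length at least 6 with total excess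
`∑ (length - 5) ≤ 2 |X| - 8`. -/
theorem result :
  ∀ (V : Type) [Fintype V] (G : SimpleGraph V),
    (∃ (f : V → ℝ × ℝ) (γ : V → V → ℝ → ℝ × ℝ),
      Function.Injective f ∧
      (∀ u v : V, G.Adj u v →
        ContinuousOn (γ u v) (Set.Icc (0:ℝ) 1) ∧ Set.InjOn (γ u v) (Set.Icc (0:ℝ) 1) ∧
        γ u v 0 = f u ∧ γ u v 1 = f v ∧
        ∀ z : V, ∀ t ∈ Set.Ioo (0:ℝ) 1, γ u v t ≠ f z) ∧
      (∀ u v w x : V, G.Adj u v → G.Adj w x → s(u, v) ≠ s(w, x) →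
        ∀ t ∈ Set.Ioo (0:ℝ) 1, ∀ r ∈ Set.Icc (0:ℝ) 1, γ u v t ≠ γ w x r)) →
    (∀ s t : Finset V, G.IsNClique 3 s → G.IsNClique 3 t → s ≠ t → Disjoint s t) →
    (∀ (v : V) (p : G.Walk v v), p.IsCycle → p.length = 5 →
      ∀ s : Finset V, G.IsNClique 3 s → ∀ a ∈ s, ∀ b ∈ s, s(a, b) ∉ p.edges) →
    ¬ G.Colorable 3 →
    ∃ (X : Finset (Finset V)) (Cs : Finset (Σ v : V, G.Walk v v)),
      (∀ s ∈ X, G.IsNClique 3 s) ∧
      (∀ C ∈ Cs, C.2.IsCycle ∧ 6 ≤ C.2.length) ∧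
      (∀ s ∈ X, ∀ a ∈ s, ∀ b ∈ s, a ≠ b → ∃! C, C ∈ Cs ∧ s(a, b) ∈ C.2.edges) ∧
      (∀ s ∈ X, ∀ C ∈ Cs, ∀ a ∈ s, ∀ b ∈ s, ∀ c ∈ s,
        s(a, b) ∈ C.2.edges → s(a, c) ∈ C.2.edges → b = c) ∧
      ∑ C ∈ Cs, ((C.2.length : ℤ) - 5) ≤ 2 * (X.card : ℤ) - 8 := by
  intro V _ G h1 h2 h3 h4
  exact Pool.Agent.KZ.LP.cover (Pool.Agent.Pl.pd_of_drawing G h1) h2 h3
    fun ⟨φ, hφ⟩ => h4 ⟨SimpleGraph.Coloring.mk φ fun h => hφ _ _ h⟩

end Pool.Agent.Results.MP_5bd7f1_co.TriangleCluster
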